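import Mathlib

/-!
Part (A) of finding 2240 (natural-density version of Tao's theorem): abstract form.

`J` rows, modulus `q = 9^J`; `ρ j l` is the signed residue mod `q` at row `j`, height `l`.
`Q ρ J B m l` is the bound for the last `m` rows, started at row `J - m`, height `l`.
-/

namespace Pool.Agent.Lib.MP_0a5adf_nt.H45

/-- Signed residues: `ρ j l` represents `9^j * 2 ξ * 2^(-l)` modulo `9^J`. -/
structure RhoData (J : ℕ) (ρ : ℕ → ℕ → ℤ) : Prop where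
  half : ∀ j l, (9 : ℤ) ^ J ∣ 2 * ρ j (l + 1) - ρ j l
  nine : ∀ j l, (9 : ℤ) ^ J ∣ ρ (j + 1) l - 9 * ρ j l
  small : ∀ j l, 2 * |ρ j l| < (9 : ℤ) ^ J
  ne : ∀ j l, j < J → ρ j l ≠ 0
  div : ∀ j l, j ≤ J → (9 : ℤ) ^ j ∣ ρ j l

/-- the weight of a step `b` from the state `(j, l)`; the candidate is the point `(j, l + 3)` -/
noncomputable def wt (ρ : ℕ → ℕ → ℤ) (J j l b : ℕ) : ℝ :=
  if b = 3 then |Real.cos (Real.pi * (ρ j (l + 3) : ℝ) / (9 : ℝ) ^ J)| else 1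

/-- `Q ρ J B m l`: bound for the last `m` rows starting at row `J - m`, height `l`. -/
noncomputable def Q (ρ : ℕ → ℕ → ℤ) (J B : ℕ) : ℕ → ℕ → ℝ
  | 0, _ => 1
  | m + 1, l => ∑ b ∈ Finset.Icc 2 B,
      ((b : ℝ) - 1) / 2 ^ b * wt ρ J (J - (m + 1)) l b * Q ρ J B m (l + b)

/-- Statement (A2)+(A3): polynomial decay of `Q` in the number of rows, uniformly in `ρ, l`. -/
def DecayStatement : Prop :=
  ∀ A : ℕ, ∃ C R : ℕ, ∀ (B J : ℕ) (ρ : ℕ → ℕ → ℤ), 3 ≤ B → RhoData J ρ →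
    ∀ m l : ℕ, 1 ≤ m → m ≤ J → Q ρ J B m l ≤ ((C * B ^ R : ℕ) / (m : ℝ)) ^ A

end Pool.Agent.Lib.MP_0a5adf_nt.H45
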