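import Mathlib
import Pool.Agent.Lib.MP_0a5adf_nt.H45.DecayDefs

/-!
Module statements for `DecayStatement` (parts A2 and A3 of finding 2240).
Each module `X` proves `theorem x : XStatement` (it may assume other statements as hypotheses).
-/

namespace Pool.Agent.Lib.MP_0a5adf_nt.H45

/-- the gain constant `c₁ = (1 - cos (π/40))/8` -/
noncomputable def c1 : ℝ := (1 - Real.cos (Real.pi / 40)) / 8

/-- the point `(j, l)` is black -/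
def Black (ρ : ℕ → ℕ → ℤ) (J j l : ℕ) : Prop := 40 * |ρ j l| ≤ (9 : ℤ) ^ J

/-- EASY: `0 ≤ Q ≤ 1`, monotone facts. -/
def EasyStatement : Prop :=
  (0 < c1 ∧ c1 < 1) ∧
  ∀ (B J : ℕ) (ρ : ℕ → ℕ → ℤ) (m l : ℕ), 0 ≤ Q ρ J B m l ∧ Q ρ J B m l ≤ 1

/-- CONG: exactness of signed residues.
(1) uniqueness; (2) if `2^i * z = ρ j l` then `ρ j (l + i) = z`;
(3) `9^y ρ j l` small implies `ρ (j + y) l = 9^y ρ j l`;
(4) in general `2^i ρ j (l+i) = 9^y ...` up to a multiple of `9^J`. -/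
def CongStatement : Prop :=
  ∀ (J : ℕ) (ρ : ℕ → ℕ → ℤ), RhoData J ρ →
    (∀ j l i : ℕ, ∀ z : ℤ, 2 ^ i * z = ρ j l → ρ j (l + i) = z) ∧
    (∀ j l y : ℕ, 2 * |9 ^ y * ρ j l| < (9 : ℤ) ^ J → ρ (j + y) l = 9 ^ y * ρ j l) ∧
    (∀ j l i y : ℕ, (9 : ℤ) ^ J ∣ 2 ^ i * ρ (j + y) (l + i) - 9 ^ y * ρ j l)

/-- STAGE (A2). `v` is an upper bound for the depth of a black candidate. -/
def StageStatement : Prop :=
  ∀ (B J : ℕ) (ρ : ℕ → ℕ → ℤ), 3 ≤ B → RhoData J ρ →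
    ∀ (v m l : ℕ) (G : ℝ), m ≤ J → v / 2 + 2 ≤ m →
      (¬ Black ρ J (J - m) (l + 3) ∨ ∃ v' ≤ v, ∃ o : ℤ, Odd o ∧ ρ (J - m) (l + 3) = 2 ^ v' * o) →
      (∀ d l' : ℕ, 1 ≤ d → d ≤ v / 2 + 2 → l + 2 * d ≤ l' → l' ≤ l + B * d →
        Q ρ J B (m - d) l' ≤ G) →
      Q ρ J B m l ≤ (1 - c1) * G

/-- exit weights: `e t = P(S_{t-1} ≤ v < S_t) = binom (v+1) (2t-1) / 2^v` for `t ≥ 1` -/
noncomputable def ex (v t : ℕ) : ℝ := ((v + 1).choose (2 * t - 1) : ℝ) / 2 ^ v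

/-- EXIT (A3 (i)): first passage over the budget `v`. -/
def ExitStatement : Prop :=
  ∀ (B J : ℕ) (ρ : ℕ → ℕ → ℤ) (T v m l : ℕ) (Φ : ℕ → ℝ), T ≤ m →
    (∀ t s : ℕ, 1 ≤ t → t ≤ T → v < s → s ≤ v + B → Q ρ J B (m - t) (l + s) ≤ Φ t) →
    (∀ t, 0 ≤ Φ t) →
    Q ρ J B m l ≤ ∑ t ∈ Finset.Icc 1 T, ex v t * Φ t + (8 / 7 : ℝ) ^ v * (7 / 9 : ℝ) ^ (2 * T)

/-- BINOM: local bound and Chebyshev tail of the exit weights. -/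
def BinomStatement : Prop :=
  (∀ v t : ℕ, 1 ≤ v → ex v t ≤ 4 / Real.sqrt v) ∧
  (∀ v T : ℕ, ∑ t ∈ Finset.Icc 1 T, ex v t ≤ 1) ∧
  (∀ (v T : ℕ) (W : ℝ), 1 ≤ v → 2 ≤ W →
    ∑ t ∈ (Finset.Icc 1 T).filter (fun t : ℕ => W * Real.sqrt v < |(t : ℝ) - v / 4|), ex v t
      ≤ 1 / W ^ 2)

/-- a deep column: black point of depth `≥ σ` at a height `lam + h`, `1 ≤ h ≤ H`, in row `r` -/
def Deep (ρ : ℕ → ℕ → ℤ) (J lam σ H r : ℕ) : Prop :=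
  ∃ h : ℕ, 1 ≤ h ∧ h ≤ H ∧ Black ρ J r (lam + h) ∧ (2 : ℤ) ^ σ ∣ ρ r (lam + h)

/-- PAIR (A3 (iii)): two deep columns below an exact odd top row are close or far apart. -/
def PairStatement : Prop :=
  ∀ (J : ℕ) (ρ : ℕ → ℕ → ℤ), RhoData J ρ →
    ∀ (j lam σ H y1 y2 : ℕ) (x : ℤ), Odd x → y1 < y2 →
      40 * |9 ^ y2 * x| ≤ (9 : ℤ) ^ J →
      ρ (j + y1) lam = 9 ^ y1 * x → ρ (j + y2) lam = 9 ^ y2 * x →
      Deep ρ J lam σ H (j + y1) → Deep ρ J lam σ H (j + y2) →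
      y2 - y1 ≤ H ∨ σ < 5 * (y2 - y1)

/-- COUNT: a set of integers in an interval of length `N` any two of whose elements differ by
at most `a` or by at least `b ≥ 1` has at most `(N / b + 1) * (a + 1)` elements. -/
def CountStatement : Prop :=
  ∀ (U : Finset ℕ) (t0 N a b : ℕ), 1 ≤ b → (∀ t ∈ U, t0 ≤ t ∧ t < t0 + N) →
    (∀ s ∈ U, ∀ t ∈ U, s < t → t - s ≤ a ∨ b ≤ t - s) →
    U.card ≤ (N / b + 1) * (a + 1)

/-- offsets `ρ_i = 4 M^i`, `i = 0, 1, ...` -/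
def off (M i : ℕ) : ℕ := 4 * M ^ i

/-- SAFE (A3 (ii)): if for all `i < R` no column `r ≤ y ≤ r + off M i` is deep at level
`σ = off M (i+1)`, `H = B (off M i + 1)`, then a state in row `r = J - m'` whose candidate is at a
height `lam + h`, `1 ≤ h ≤ B`, gains `(1-c1)^R` before offset `off M R`. -/
def SafeStatement : Prop :=
  ∀ (B J : ℕ) (ρ : ℕ → ℕ → ℤ), 3 ≤ B → RhoData J ρ →
    ∀ (M R m' l' lam : ℕ) (G : ℝ), 4 ≤ M → m' ≤ J → off M R ≤ m' →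
      lam + 1 ≤ l' + 3 → l' + 3 ≤ lam + B →
      (∀ i < R, ∀ y ≤ off M i,
        ¬ Deep ρ J lam (off M (i + 1)) (B * (off M i + 1)) (J - m' + y)) →
      (∀ d l'' : ℕ, d ≤ off M R → Q ρ J B (m' - d) l'' ≤ G) →
      Q ρ J B m' l' ≤ (1 - c1) ^ R * G

end Pool.Agent.Lib.MP_0a5adf_nt.H45
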