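import Mathlib
import Pool.Agent.Lib.MP_0a5adf_nt.H45.DecayIface

namespace Pool.Agent.Lib.MP_0a5adf_nt.H45

/-- the weights sum up to `P(k) = 1 - (k+1)/2^k` -/
theorem sum_p (k : ℕ) : ∑ b ∈ Finset.Icc 2 k, ((b : ℝ) - 1) / 2 ^ b
    = 1 - ((k : ℝ) + 1) / 2 ^ k := by
  induction k with
  | zero => simp
  | succ n ih =>
    rcases Nat.lt_or_ge n 1 with h | h
    · have : n = 0 := by omega
      subst this; norm_num
    · rw [Finset.sum_Icc_succ_top (by omega), ih]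
      push_cast
      field_simp
      ring

theorem sum_p_le_one (k : ℕ) : ∑ b ∈ Finset.Icc 2 k, ((b : ℝ) - 1) / 2 ^ b ≤ 1 := by
  rw [sum_p]
  have : 0 ≤ ((k : ℝ) + 1) / 2 ^ k := by positivity
  linarith

theorem p_nonneg {b k : ℕ} (h : b ∈ Finset.Icc 2 k) : 0 ≤ ((b : ℝ) - 1) / 2 ^ b := by
  have h2 : 2 ≤ b := (Finset.mem_Icc.1 h).1
  have : (2 : ℝ) ≤ b := by exact_mod_cast h2
  apply div_nonneg <;> [linarith; positivity]

theorem wt_nonneg (ρ : ℕ → ℕ → ℤ) (J j l b : ℕ) : 0 ≤ wt ρ J j l b := by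
  unfold wt; split_ifs <;> positivity

theorem wt_le_one (ρ : ℕ → ℕ → ℤ) (J j l b : ℕ) : wt ρ J j l b ≤ 1 := by
  unfold wt; split_ifs
  · exact Real.abs_cos_le_one _
  · exact le_rfl

theorem Q_nonneg (ρ : ℕ → ℕ → ℤ) (J B m l : ℕ) : 0 ≤ Q ρ J B m l := by
  induction m generalizing l with
  | zero => simp [Q]
  | succ m ih =>
    rw [Q]
    exact Finset.sum_nonneg fun b hb =>
      mul_nonneg (mul_nonneg (p_nonneg hb) (wt_nonneg _ _ _ _ _)) (ih _)

theorem Q_le_one (ρ : ℕ → ℕ → ℤ) (J B m l : ℕ) : Q ρ J B m l ≤ 1 := by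
  induction m generalizing l with
  | zero => simp [Q]
  | succ m ih =>
    rw [Q]
    refine le_trans (Finset.sum_le_sum fun b hb => ?_) (sum_p_le_one B)
    have h1 := p_nonneg hb
    have h2 := wt_le_one ρ J (J - (m + 1)) l b
    have h3 := wt_nonneg ρ J (J - (m + 1)) l b
    have h4 := ih (l + b)
    have h5 := Q_nonneg ρ J B m (l + b)
    calc ((b : ℝ) - 1) / 2 ^ b * wt ρ J (J - (m + 1)) l b * Q ρ J B m (l + b)
        ≤ ((b : ℝ) - 1) / 2 ^ b * 1 * 1 := by gcongr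
      _ = ((b : ℝ) - 1) / 2 ^ b := by ring

theorem c1_pos : 0 < c1 := by
  unfold c1
  have : Real.cos (Real.pi / 40) < 1 := by
    have := Real.cos_lt_cos_of_nonneg_of_le_pi_div_two (x := 0) (y := Real.pi / 40) le_rfl
      (by linarith [Real.pi_pos]) (by linarith [Real.pi_pos])
    simpa using this
  linarith

theorem c1_le : c1 ≤ 1 / 8 := by
  unfold c1
  have : 0 ≤ Real.cos (Real.pi / 40) :=
    Real.cos_nonneg_of_mem_Icc ⟨by linarith [Real.pi_pos], by linarith [Real.pi_pos]⟩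
  linarith

theorem easy : EasyStatement :=
  ⟨⟨c1_pos, by linarith [c1_le]⟩, fun B J ρ m l => ⟨Q_nonneg ρ J B m l, Q_le_one ρ J B m l⟩⟩

/-- uniqueness of signed residues -/
theorem res_unique {q a b : ℤ} (ha : 2 * |a| < q) (hb : 2 * |b| < q) (h : q ∣ a - b) : a = b := by
  obtain ⟨k, hk⟩ := h
  have h1 : |a - b| < q := by
    have := abs_sub a b
    have : |a - b| ≤ |a| + |b| := abs_sub a b
    omega
  by_contra hne
  have hk0 : k ≠ 0 := by
    rintro rfl
    apply hne; linarith [hk]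
  have : q ≤ |a - b| := by
    rw [hk, abs_mul]
    have h2 : 1 ≤ |k| := Int.one_le_abs hk0
    have h3 : 0 < q := by have := abs_nonneg a; omega
    rw [abs_of_pos h3]
    nlinarith
  omega

theorem odd_q (J : ℕ) : IsCoprime ((9 : ℤ) ^ J) (2 : ℤ) := by
  apply IsCoprime.pow_left
  exact ⟨1, -4, by norm_num⟩

theorem cong_half {J : ℕ} {ρ : ℕ → ℕ → ℤ} (h : RhoData J ρ) (j l i : ℕ) :
    (9 : ℤ) ^ J ∣ 2 ^ i * ρ j (l + i) - ρ j l := by
  induction i with
  | zero => simp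
  | succ i ih =>
    have h1 := h.half j (l + i)
    have : 2 ^ (i + 1) * ρ j (l + (i + 1)) - ρ j l
        = 2 ^ i * (2 * ρ j (l + i + 1) - ρ j (l + i)) + (2 ^ i * ρ j (l + i) - ρ j l) := by
      rw [← add_assoc]; ring
    rw [this]
    exact dvd_add (Dvd.dvd.mul_left h1 _) ih

theorem cong_nine {J : ℕ} {ρ : ℕ → ℕ → ℤ} (h : RhoData J ρ) (j l y : ℕ) :
    (9 : ℤ) ^ J ∣ ρ (j + y) l - 9 ^ y * ρ j l := by
  induction y with
  | zero => simp
  | succ y ih =>
    have h1 := h.nine (j + y) l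
    have : ρ (j + (y + 1)) l - 9 ^ (y + 1) * ρ j l
        = (ρ (j + y + 1) l - 9 * ρ (j + y) l) + 9 * (ρ (j + y) l - 9 ^ y * ρ j l) := by
      rw [← add_assoc]; ring
    rw [this]
    exact dvd_add h1 (Dvd.dvd.mul_left ih _)

theorem cong : CongStatement := by
  intro J ρ h
  refine ⟨?_, ?_, ?_⟩
  · intro j l i z hz
    have h1 := cong_half h j l i
    rw [← hz, ← mul_sub] at h1
    have h2 : (9 : ℤ) ^ J ∣ ρ j (l + i) - z := by
      have hc : IsCoprime ((9 : ℤ) ^ J) ((2 : ℤ) ^ i) := (odd_q J).pow_right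
      exact hc.dvd_of_dvd_mul_left h1
    apply res_unique (h.small _ _) _ h2
    have h3 := h.small j l
    rw [← hz, abs_mul, abs_pow] at h3
    have h4 : (1 : ℤ) ≤ |2| ^ i := one_le_pow₀ (by norm_num)
    have h5 := abs_nonneg z
    nlinarith
  · intro j l y hy
    exact res_unique (h.small _ _) hy (cong_nine h j l y)
  · intro j l i y
    have h1 := cong_half h (j + y) l i
    have h2 := cong_nine h j l y
    have : 2 ^ i * ρ (j + y) (l + i) - 9 ^ y * ρ j l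
      = (2 ^ i * ρ (j + y) (l + i) - ρ (j + y) l) + (ρ (j + y) l - 9 ^ y * ρ j l) := by ring
    rw [this]
    exact dvd_add h1 h2

end Pool.Agent.Lib.MP_0a5adf_nt.H45
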